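import Pool.Agent.TH984.GB.Defs

set_option autoImplicit false

/-!
helper811: uniqueness of the coefficients of a polynomial in two nonnegative variables.
-/

namespace Pool.Agent.TH811.GB

open Polynomial

/-- one variable: two polynomial sums agreeing on the nonnegative reals have the same coefficients -/
theorem uniq_one (m : ℕ) (a b : ℕ → ℝ)
    (h : ∀ s : ℝ, 0 ≤ s → ∑ j ∈ Finset.range (m + 1), s ^ j * a j =
      ∑ j ∈ Finset.range (m + 1), s ^ j * b j) :
    ∀ j : ℕ, j ≤ m → a j = b j := by
  intro j hj
  have key : (∑ j ∈ Finset.range (m + 1), Polynomial.C (a j) * X ^ j : ℝ[X]) =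
      ∑ j ∈ Finset.range (m + 1), Polynomial.C (b j) * X ^ j := by
    apply Polynomial.eq_of_infinite_eval_eq
    apply Set.Infinite.mono (s := Set.Ici (0 : ℝ))
    · intro s hs
      simp only [Set.mem_ofPred_eq, Polynomial.eval_finsetSum, Polynomial.eval_mul,
        Polynomial.eval_C, Polynomial.eval_pow, Polynomial.eval_X]
      have := h s hs
      simpa [mul_comm] using this
    · exact Set.Ici_infinite 0
  have h2 := congrArg (fun p => Polynomial.coeff p j) key
  simp only [Polynomial.finsetSum_coeff, Polynomial.coeff_C_mul, Polynomial.coeff_X_pow] at h2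
  simpa [Finset.sum_ite_eq, Nat.lt_succ_of_le hj, hj] using h2

theorem t_UNIQ : Pool.Agent.TH984.GB.S_UNIQ := by
  intro m a b h j l hj hl
  have h1 : ∀ t : ℝ, 0 ≤ t → ∀ j : ℕ, j ≤ m →
      ∑ l ∈ Finset.range (m + 1), t ^ l * a j l = ∑ l ∈ Finset.range (m + 1), t ^ l * b j l := by
    intro t ht
    apply uniq_one m (fun j => ∑ l ∈ Finset.range (m + 1), t ^ l * a j l)
      (fun j => ∑ l ∈ Finset.range (m + 1), t ^ l * b j l)
    intro s hs
    have := h s t hs ht
    simp only [Finset.mul_sum]
    simpa [mul_assoc] using this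
  exact uniq_one m (a j) (b j) (fun t ht => h1 t ht j hj) l hl

end Pool.Agent.TH811.GB
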